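import Pool.Agent.Qdec.Fin

/-!
# A decision procedure for quotients of numerical semigroups of embedding dimension three

A numerical semigroup `S` of the form `T / p`, `T = ⟨a, b, c⟩`, is the set of all `x` such that `x Δ` contains a lattice
point, `Δ` a triangle in the plane.  A reduced basis bounds the lattice points that matter for the elements `x ≤ 2 n + 1`
of `S`; the sign pattern of the three edge forms on these points is realised strictly by a perturbed triangle, hence, by
Cramer's rule, by one with small integer coefficients; a second perturbation makes the three minors of the forms coprime,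
and these minors are then the generators of a small `T'` with `T' / p' = S`.
-/

namespace Pool.Agent.Results.MP_c71e9d_nt.DecisionProcedure

/-- Numerical semigroups. -/
def IsNumericalSemigroup (S : Set ℕ) : Prop :=
  0 ∈ S ∧ (∀ x ∈ S, ∀ y ∈ S, x + y ∈ S) ∧ Sᶜ.Finite

/-- `A` is a minimal system of generators of `T`. -/
def IsMinimalSystem (A : Finset ℕ) (T : Set ℕ) : Prop :=
  (AddSubmonoid.closure (A : Set ℕ) : Set ℕ) = T ∧
    ∀ B : Finset ℕ, B ⊂ A → (AddSubmonoid.closure (B : Set ℕ) : Set ℕ) ≠ T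

/-- `S = T / p` for a numerical semigroup `T` of embedding dimension three and an integer `p ≥ 1`. -/
def IsQuotient (S : Set ℕ) : Prop :=
  ∃ (T : Set ℕ) (A : Finset ℕ) (p : ℕ), IsNumericalSemigroup T ∧ IsMinimalSystem A T ∧
    A.card = 3 ∧ 1 ≤ p ∧ S = {x | p * x ∈ T}

/-- `S = T / p` for a numerical semigroup `T` generated by at most three elements and `p ≥ 1`. -/
def IsQuotientLe (S : Set ℕ) : Prop :=
  ∃ (T : Set ℕ) (A : Finset ℕ) (p : ℕ), IsNumericalSemigroup T ∧ A.card ≤ 3 ∧
    (AddSubmonoid.closure (A : Set ℕ) : Set ℕ) = T ∧ 1 ≤ p ∧ S = {x | p * x ∈ T}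

/-- `n` is a combination of `a`, `b`, `c` with coefficients in `ℕ`. -/
def Gen3 (a b c n : ℕ) : Prop := ∃ i j k : ℕ, n = a * i + b * j + c * k

/-- `n` is a combination of `a`, `b` with coefficients in `ℕ`. -/
def Gen2 (a b n : ℕ) : Prop := ∃ i j : ℕ, n = a * i + b * j

/-- `a, b, c` are positive with greatest common divisor `1` and none of them is in the semigroup generated by the two
others; `p` is positive; and all four numbers are at most `B`. -/
def Admissible (B a b c p : ℕ) : Prop :=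
  0 < a ∧ 0 < b ∧ 0 < c ∧ 0 < p ∧ a ≤ B ∧ b ≤ B ∧ c ≤ B ∧ p ≤ B ∧
    Nat.gcd (Nat.gcd a b) c = 1 ∧ ¬ Gen2 b c a ∧ ¬ Gen2 a c b ∧ ¬ Gen2 a b c

/-- For a numerical semigroup `S` with Frobenius number at most `n`, `n ≥ 1`: if `S = T / p` with `e(T) = 3` (or just with
`T` generated by at most three elements), then there are such `T = ⟨a, b, c⟩` and `p` with
`a, b, c, p ≤ (200 n)^215`, and whether `S = ⟨a, b, c⟩ / p` can be read off from the elements `x ≤ 2 n + 1`.
In particular it is primitive recursive to decide, from the finite list of the gaps, whether a set is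
a numerical semigroup of the form `T / p` with `e(T) = 3`. -/
theorem result :
    (∀ (n : ℕ) (S : Set ℕ), 1 ≤ n → IsNumericalSemigroup S → (∀ x, n < x → x ∈ S) →
      [IsQuotient S,
       IsQuotientLe S,
       ∃ a b c p : ℕ, Admissible ((200 * n) ^ 215) a b c p ∧ S = {x | Gen3 a b c (p * x)},
       ∃ a b c p : ℕ, Admissible ((200 * n) ^ 215) a b c p ∧
         ∀ x ≤ 2 * n + 1, (x ∈ S ↔ Gen3 a b c (p * x))].TFAE) ∧
    PrimrecPred (fun l : List ℕ => IsNumericalSemigroup {x | x ∉ l} ∧ IsQuotient {x | x ∉ l}) := by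
  refine ⟨fun n S hn hS hx => ?_, Pool.Agent.Qdec.primrec_isQ⟩
  tfae_have 1 → 2
  | h => Pool.Agent.Qdec.isQ_three S h
  tfae_have 2 → 4
  | h => by
    obtain ⟨a, b, c, p, h1, h2, h3, h4, ha, hb, hc, hp, hg, g1, g2, g3, hx'⟩ :=
      Pool.Agent.Qdec.three_crit n hn S hS hx h
    exact ⟨a, b, c, p, ⟨h1, h2, h3, h4, ha, hb, hc, hp, hg, g1, g2, g3⟩, hx'⟩
  tfae_have 4 → 3
  | ⟨a, b, c, p, h, hx'⟩ => by
    refine ⟨a, b, c, p, h, ?_⟩
    apply Pool.Agent.Qdec.determined n S {x | Gen3 a b c (p * x)} hx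
    · rintro x ⟨i, j, k, e⟩ y ⟨i', j', k', e'⟩
      exact ⟨i + i', j + j', k + k', by rw [mul_add, e, e']; ring⟩
    · exact hx'
  tfae_have 3 → 1
  | ⟨a, b, c, p, ⟨h1, h2, h3, h4, ha, hb, hc, hp, hg, g1, g2, g3⟩, hS'⟩ => by
    obtain ⟨hT, A, hA, hA3⟩ := Pool.Agent.Qdec.emb a b c hg g1 g2 g3
    exact ⟨{m | Gen3 a b c m}, A, p, hT, hA, hA3, h4, hS'⟩
  tfae_finish

end Pool.Agent.Results.MP_c71e9d_nt.DecisionProcedure
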