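import Pool.Agent.Hhelper28.Quot.Box

/-!
# Few numerical semigroups are quotients of numerical semigroups with three generators

A numerical semigroup of the form `T / p`, `T = ⟨a, b, c⟩`, is the set of all `x` such that `x Δ`
contains a lattice point, for a triangle `Δ` in the plane. Reduction of the triangle shows that the
elements up to `n` are determined by three half-space patterns on `O(n³)` integer vectors.
-/

namespace Pool.Agent.Results.MP_c71e9d_nt.FewQuotients

/-- Numerical semigroups. -/
def IsNumericalSemigroup (S : Set ℕ) : Prop :=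
  0 ∈ S ∧ (∀ x ∈ S, ∀ y ∈ S, x + y ∈ S) ∧ Sᶜ.Finite

/-- `S = T / p` for a numerical semigroup `T` generated by a set `A` of at most three elements
(in particular for every `T` of embedding dimension three) and an integer `p ≥ 1`. -/
def IsQuotient (S : Set ℕ) : Prop :=
  ∃ (T : Set ℕ) (A : Finset ℕ) (p : ℕ), IsNumericalSemigroup T ∧ A.card ≤ 3 ∧
    (AddSubmonoid.closure (A : Set ℕ) : Set ℕ) = T ∧ 1 ≤ p ∧ S = {x | p * x ∈ T}

/-- At most `195^10 n^27` numerical semigroups with Frobenius number at most `n` are quotients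
`T / p` with `T` generated by three elements; their proportion among all numerical semigroups with
Frobenius number at most `n` is at most `195^10 n^27 / 2^⌈n/2⌉`. -/
theorem result : ∀ n : ℕ, 1 ≤ n →
    {S : Set ℕ | IsNumericalSemigroup S ∧ (∀ x, n < x → x ∈ S) ∧ IsQuotient S}.ncard ≤
      195 ^ 10 * n ^ 27 ∧
    {S : Set ℕ | IsNumericalSemigroup S ∧ (∀ x, n < x → x ∈ S) ∧ IsQuotient S}.ncard *
      2 ^ ((n + 1) / 2) ≤
      195 ^ 10 * n ^ 27 *
        {S : Set ℕ | IsNumericalSemigroup S ∧ ∀ x, n < x → x ∈ S}.ncard := by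
  intro n hn
  have h1 : {S : Set ℕ | IsNumericalSemigroup S ∧ (∀ x, n < x → x ∈ S) ∧ IsQuotient S}.ncard ≤
      195 ^ 10 * n ^ 27 := Pool.Hhelper28.Quot.class_finite_card n hn
  have h2 : 2 ^ ((n + 1) / 2) ≤
      {S : Set ℕ | IsNumericalSemigroup S ∧ ∀ x, n < x → x ∈ S}.ncard :=
    Pool.Hhelper28.Quot.all_card n
  exact ⟨h1, Nat.mul_le_mul h1 h2⟩

end Pool.Agent.Results.MP_c71e9d_nt.FewQuotients
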