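import Pool.Agent.Qmul.Six
import Pool.Agent.Qmul.Seven
import Pool.Agent.Qmul.Parity

/-!
# Numerical semigroups of multiplicity at most six are quotients, and six is optimal

Let `m ∈ S` and let `w k` be the least element of `S` in the class `k` modulo `m`.  `S` is a quotient of a semigroup with
three generators as soon as there are three linear forms on `ℤ²` whose maximum `N` satisfies `w q ≤ N (p, q)` for all
`(p, q)`, with `N (p, q) ≤ w k` for some `(p, q)` in every class `q ≡ k`.  For `m = 4, 5, 6` a decision tree (with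
`2`, `1`, `29` leaves) covers the cone of all possible `w`; on every leaf the three forms, a unimodular fan that proves the
lower bound, and the touching vectors are explicit, and all inequalities have exact Farkas certificates, which are checked
by the kernel.  For `m = 7` the semigroup `⟨7, 102, 120, 129, 135⟩` is shown not to be a quotient: the vectors of the four
generators are determined modulo `2` and modulo `3`, a vector of small norm in the class zero is excluded, so the two
relations between them hold exactly, and then four lattice vectors need four different forms.  For `m ≥ 8` a parity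
argument suffices.
-/

namespace Pool.Agent.Results.MP_c71e9d_nt.SmallMultiplicity

/-- Numerical semigroups. -/
def IsNumericalSemigroup (S : Set ℕ) : Prop :=
  0 ∈ S ∧ (∀ x ∈ S, ∀ y ∈ S, x + y ∈ S) ∧ Sᶜ.Finite

/-- `m` is the multiplicity of `S`, its least positive element. -/
def HasMultiplicity (S : Set ℕ) (m : ℕ) : Prop :=
  0 < m ∧ m ∈ S ∧ ∀ x ∈ S, 0 < x → m ≤ x

/-- `A` is a minimal system of generators of `T`. -/
def IsMinimalSystem (A : Finset ℕ) (T : Set ℕ) : Prop :=
  (AddSubmonoid.closure (A : Set ℕ) : Set ℕ) = T ∧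
    ∀ B : Finset ℕ, B ⊂ A → (AddSubmonoid.closure (B : Set ℕ) : Set ℕ) ≠ T

/-- `S = T / p` for a numerical semigroup `T` of embedding dimension three and an integer `p ≥ 1`. -/
def IsQuotient (S : Set ℕ) : Prop :=
  ∃ (T : Set ℕ) (A : Finset ℕ) (p : ℕ), IsNumericalSemigroup T ∧ IsMinimalSystem A T ∧
    A.card = 3 ∧ 1 ≤ p ∧ S = {x | p * x ∈ T}

/-- `S = T / p` for a numerical semigroup `T` generated by at most three elements and `p ≥ 1`. -/
def IsQuotientLe (S : Set ℕ) : Prop :=
  ∃ (T : Set ℕ) (A : Finset ℕ) (p : ℕ), IsNumericalSemigroup T ∧ A.card ≤ 3 ∧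
    (AddSubmonoid.closure (A : Set ℕ) : Set ℕ) = T ∧ 1 ≤ p ∧ S = {x | p * x ∈ T}

private theorem S7_closure :
    (AddSubmonoid.closure ({7, 102, 120, 129, 135} : Set ℕ) : Set ℕ) = Pool.Agent.Qmul.S7 := by
  have hadd := Pool.Agent.Qmul.ns7.2.1
  apply Set.Subset.antisymm
  · let M : AddSubmonoid ℕ :=
      { carrier := Pool.Agent.Qmul.S7
        zero_mem' := Pool.Agent.Qmul.ns7.1
        add_mem' := fun {a b} ha hb => hadd a ha b hb }
    have h : AddSubmonoid.closure ({7, 102, 120, 129, 135} : Set ℕ) ≤ M := by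
      rw [AddSubmonoid.closure_le]
      intro x hx
      simp only [Set.mem_insert_iff, Set.mem_singleton_iff] at hx
      rcases hx with rfl | rfl | rfl | rfl | rfl <;>
        · show Pool.Agent.Qmul.w7 _ ≤ _
          decide
    exact h
  · intro x hx
    have hx' : Pool.Agent.Qmul.w7 (x % 7) ≤ x := hx
    set M := AddSubmonoid.closure ({7, 102, 120, 129, 135} : Set ℕ) with hM
    have g : ∀ y ∈ ({7, 102, 120, 129, 135} : Set ℕ), y ∈ M := fun y hy =>
      AddSubmonoid.subset_closure hy
    have g7 : ∀ t : ℕ, 7 * t ∈ M := by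
      intro t
      rw [mul_comm, ← smul_eq_mul]
      exact AddSubmonoid.nsmul_mem M (g 7 (by simp)) t
    have key : ∀ y ∈ M, y ≤ x → (x - y) % 7 = 0 → x ∈ M := by
      intro y hy h1 h2
      have h3 : x = y + 7 * ((x - y) / 7) := by omega
      rw [h3]
      exact add_mem hy (g7 _)
    have h120 := g 120 (by simp)
    have h135 := g 135 (by simp)
    have h129 := g 129 (by simp)
    have h102 := g 102 (by simp)
    have hlt : x % 7 < 7 := Nat.mod_lt _ (by norm_num)
    show x ∈ M
    generalize hr : x % 7 = r at hx' hlt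
    interval_cases r
    · exact key 0 (zero_mem _) (by omega) (by omega)
    · exact key 120 h120 hx' (by have : 120 ≤ x := hx'; omega)
    · exact key 135 h135 hx' (by have : 135 ≤ x := hx'; omega)
    · exact key 129 h129 hx' (by have : 129 ≤ x := hx'; omega)
    · exact key 102 h102 hx' (by have : 102 ≤ x := hx'; omega)
    · exact key (120 + 102) (add_mem h120 h102) hx' (by have : 222 ≤ x := hx'; omega)
    · exact key (135 + 102) (add_mem h135 h102) hx' (by have : 237 ≤ x := hx'; omega)

/-- Every numerical semigroup of multiplicity `m` is of the form `T / p` with `e(T) = 3` if and only if `m ≤ 6`.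
More precisely: every numerical semigroup that contains a positive number `≤ 6` is of this form; for every `m ≥ 7`
some numerical semigroup of multiplicity `m` is not even a quotient of a numerical semigroup generated by at most three
elements; and for `m = 7` such a semigroup is `⟨7, 102, 120, 129, 135⟩`. -/
theorem result :
    (∀ m : ℕ, 1 ≤ m →
      ((∀ S : Set ℕ, IsNumericalSemigroup S → HasMultiplicity S m → IsQuotient S) ↔ m ≤ 6)) ∧
    (∀ S : Set ℕ, IsNumericalSemigroup S → (∃ x ∈ S, 1 ≤ x ∧ x ≤ 6) → IsQuotient S) ∧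
    (∀ m : ℕ, 7 ≤ m →
      ∃ S : Set ℕ, IsNumericalSemigroup S ∧ HasMultiplicity S m ∧ ¬ IsQuotientLe S) ∧
    (∀ S : Set ℕ, S = (AddSubmonoid.closure ({7, 102, 120, 129, 135} : Set ℕ) : Set ℕ) →
      IsNumericalSemigroup S ∧ HasMultiplicity S 7 ∧ ¬ IsQuotientLe S) := by
  have h7 : ∀ S : Set ℕ, S = (AddSubmonoid.closure ({7, 102, 120, 129, 135} : Set ℕ) : Set ℕ) →
      IsNumericalSemigroup S ∧ HasMultiplicity S 7 ∧ ¬ IsQuotientLe S := by
    intro S hS
    rw [S7_closure] at hS
    rw [hS]
    exact ⟨Pool.Agent.Qmul.ns7, ⟨by norm_num, Pool.Agent.Qmul.mem7, Pool.Agent.Qmul.min7⟩,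
      Pool.Agent.Qmul.not_quot7⟩
  have hneg : ∀ m : ℕ, 7 ≤ m →
      ∃ S : Set ℕ, IsNumericalSemigroup S ∧ HasMultiplicity S m ∧ ¬ IsQuotientLe S := by
    intro m hm
    rcases Nat.lt_or_ge m 8 with h8 | h8
    · have e : m = 7 := by omega
      rw [e]
      exact ⟨_, h7 _ rfl⟩
    · obtain ⟨S, h1, h2, h3, h4⟩ := Pool.Agent.Qmul.big m h8
      exact ⟨S, h1, ⟨by omega, h2, h3⟩, h4⟩
  have hpos : ∀ S : Set ℕ, IsNumericalSemigroup S → (∃ x ∈ S, 1 ≤ x ∧ x ≤ 6) → IsQuotient S := by
    rintro S hS ⟨x, hx, h1, h6⟩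
    exact Pool.Agent.Qmul.six S hS x h1 h6 hx
  refine ⟨fun m hm => ⟨fun h => ?_, fun h S hS hSm => hpos S hS ⟨m, hSm.2.1, hm, h⟩⟩, hpos, hneg, h7⟩
  by_contra hc
  obtain ⟨S, h1, h2, h3⟩ := hneg m (by omega)
  obtain ⟨T, A, p, hT, hA, hA3, hp, hST⟩ := h S h1 h2
  exact h3 ⟨T, A, p, hT, hA3.le, hA.1, hp, hST⟩

end Pool.Agent.Results.MP_c71e9d_nt.SmallMultiplicity
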